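import Mathlib

namespace Pool.Agent.Lib.MP_93ea69_gt

open Cardinal Ordinal Set

/-- The first uncountable ordinal, as a well-ordered type. -/
abbrev W : Type := (ω₁ : Ordinal.{0}).ToType

/-- Functions from `ω₁` to `ω + 1`. -/
def Box : Type := W → ℕ∞

/-- The box topology. -/
instance : TopologicalSpace Box :=
  TopologicalSpace.generateFrom
    {t | ∃ U : W → Set ℕ∞, (∀ i, IsOpen (U i)) ∧ t = {x : Box | ∀ i, x i ∈ U i}}

/-- Equality off a countable set of coordinates. -/
def boxSetoid : Setoid Box where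
  r x y := {i | x i ≠ y i}.Countable
  iseqv :=
    ⟨fun x => by simp, fun h => by simpa only [ne_comm] using h,
      fun {x y z} h1 h2 => (h1.union h2).mono fun i hi => by
        by_contra hc
        simp only [mem_union, mem_ofPred_eq, not_or, not_not] at hc
        exact hi (hc.1.trans hc.2)⟩

/-- The nabla product, with the quotient topology. -/
abbrev Nabla : Type := Quotient boxSetoid

/-- The principle `E(ω₁, κ)`. -/
def EPrinciple (κ : Cardinal.{0}) : Prop :=
  ∀ (F : Set (W → ℕ)) (𝒜 : Set (Set W)), #F < κ → #𝒜 < κ → (∀ A ∈ 𝒜, ¬ A.Countable) →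
    ∃ g : W → ℕ, ∀ f ∈ F, ∀ A ∈ 𝒜, ¬ {i | i ∈ A ∧ f i < g i}.Countable

/-- No family of fewer than `κ` functions `ω₁ → ω₁` is dominating modulo countable sets. -/
def NoSmallDominating (κ : Cardinal.{0}) : Prop :=
  ∀ D : Set (W → W), #D < κ → ∃ g : W → W, ∀ f ∈ D, ¬ {i | f i < g i}.Countable

/-- A family of uncountable subsets of `ω₁` with countable pairwise intersections. -/
def AlmostDisjoint (ℬ : Set (Set W)) : Prop :=
  (∀ B ∈ ℬ, ¬ B.Countable) ∧ ℬ.Pairwise fun B C => (B ∩ C).Countable

end Pool.Agent.Lib.MP_93ea69_gt
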