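import Mathlib
import Pool.Agent.Lib.MP_93ea69_gt.Defs

namespace Pool.Agent.Lib.MP_93ea69_gt

open Cardinal Ordinal Set Order

lemma mk_W : #W = ℵ₁ := by simp [W]

lemma countable_Iio (i : W) : (Iio i).Countable := by
  rw [← le_aleph0_iff_set_countable, ← lt_aleph_one_iff, ← mk_W]
  exact mk_Iio_lt i (by simp [W])

lemma countable_Iic (i : W) : (Iic i).Countable := by
  rw [← Iio_insert]; exact (countable_Iio i).insert i

lemma not_countable_univ : ¬ (univ : Set W).Countable := by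
  rw [← le_aleph0_iff_set_countable, mk_univ, mk_W, not_le]
  exact aleph0_lt_aleph_one

lemma exists_not_mem {A S : Set W} (hA : ¬ A.Countable) (hS : S.Countable) : ∃ i ∈ A, i ∉ S := by
  by_contra h
  push Not at h
  exact hA (hS.mono h)

lemma exists_bound {S : Set W} (hS : S.Countable) : ∃ b, ∀ i ∈ S, i < b := by
  obtain ⟨b, -, hb⟩ := exists_not_mem not_countable_univ (hS.biUnion fun i _ => countable_Iic i)
  refine ⟨b, fun i hi => ?_⟩
  by_contra h
  exact hb (mem_biUnion hi (not_lt.mp h))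

lemma exists_const {A : Set W} (hA : ¬ A.Countable) (f : W → ℕ) :
    ∃ m, ¬ {i | i ∈ A ∧ f i = m}.Countable := by
  by_contra h
  push Not at h
  exact hA ((countable_iUnion h).mono fun i hi => mem_iUnion.2 ⟨f i, And.intro hi rfl⟩)

lemma exists_inj (c : W) : ∃ e : W → ℕ, InjOn e (Iic c) :=
  countable_iff_exists_injOn.1 (countable_Iic c)

lemma exists_closed (h : W → W) (i : W) : ∃ c, i < c ∧ ∀ j, j < c → h j < c := by
  let S : ℕ → Set W := fun n => Nat.rec (Iic i) (fun _ T => ⋃ j ∈ T, Iic (max j (h j))) n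
  have hS : ∀ n, (S n).Countable := fun n => by
    induction n with
    | zero => exact countable_Iic i
    | succ n ih => exact ih.biUnion fun j _ => countable_Iic _
  have hne : ((⋃ n, S n)ᶜ).Nonempty := by
    obtain ⟨c, -, hc⟩ := exists_not_mem not_countable_univ (countable_iUnion hS)
    exact ⟨c, hc⟩
  set c := wellFounded_lt.min _ hne
  have hc : c ∉ ⋃ n, S n := wellFounded_lt.min_mem _ hne
  refine ⟨c, ?_, fun j hj => ?_⟩
  · by_contra hi
    exact hc (mem_iUnion.2 ⟨0, not_lt.mp hi⟩)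
  · have : j ∈ ⋃ n, S n := by
      by_contra hj'
      exact wellFounded_lt.not_lt_min _ hj' hj
    obtain ⟨n, hn⟩ := mem_iUnion.1 this
    by_contra hh
    exact hc (mem_iUnion.2 ⟨n + 1, mem_biUnion hn ((not_lt.mp hh).trans (le_max_right _ _))⟩)

lemma exists_window {A : Set W} (hA : ¬ A.Countable) (i : W) :
    ∃ b, (A ∩ Icc i b).Infinite := by
  have h1 : (A \ Iio i).Infinite := fun h =>
    hA ((h.countable.union (countable_Iio i)).mono (subset_sdiff_union _ _))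
  obtain ⟨T, hT, hT2, hT1⟩ := h1.exists_subset_countable_infinite
  obtain ⟨b, hb⟩ := exists_bound hT2
  exact ⟨b, hT1.mono fun j hj =>
    And.intro (hT hj).1 (And.intro (not_lt.mp (hT hj).2) (hb j hj).le)⟩

theorem E_of_noSmallDominating {κ : Cardinal.{0}} (hκ : ℵ₀ ≤ κ) (h : NoSmallDominating κ) :
    EPrinciple κ := by
  intro F 𝒜 hF h𝒜 hA
  choose m hm using fun p : F × 𝒜 => exists_const (hA p.2.1 p.2.2) p.1.1
  choose φ hφ using fun p : F × 𝒜 => exists_window (hm p)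
  obtain ⟨u, hu⟩ := h (range φ) (mk_range_le.trans_lt (by
    simpa using mul_lt_of_lt hκ hF h𝒜))
  set b : W → W := fun i => wellFounded_lt.min {c | i < c ∧ ∀ j, j < c → u j < c}
    (exists_closed u i) with hb
  have hb1 : ∀ i, i < b i ∧ ∀ j, j < b i → u j < b i := fun i =>
    wellFounded_lt.min_mem {c | i < c ∧ ∀ j, j < c → u j < c} (exists_closed u i)
  have hb2 : ∀ i c, i < c → (∀ j, j < c → u j < c) → b i ≤ c := fun i c h1 h2 =>
    wellFounded_lt.min_le (s := {c | i < c ∧ ∀ j, j < c → u j < c}) ⟨h1, h2⟩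
  choose e he using exists_inj
  refine ⟨fun j => e (b j) j, fun f hf A hA' hc => ?_⟩
  obtain ⟨t, ht⟩ := exists_bound hc
  set p : F × 𝒜 := (⟨f, hf⟩, ⟨A, hA'⟩)
  obtain ⟨i, hi1, hi2⟩ := exists_not_mem (hu _ ⟨p, rfl⟩) (countable_Iio t)
  have hi3 : t ≤ i := not_lt.mp hi2
  have hbj : ∀ j ∈ Icc i (φ p i), b j = b i := fun j hj =>
    le_antisymm (hb2 j _ ((hj.2.trans_lt hi1).trans ((hb1 i).2 i (hb1 i).1)) (hb1 i).2)
      (hb2 i _ (hj.1.trans_lt (hb1 j).1) (hb1 j).2)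
  refine hφ p i (Finite.of_injOn (f := e (b i)) (t := Iic (m p)) (fun j hj => ?_)
    ((he (b i)).mono fun j hj => ?_) (finite_Iic _))
  · by_contra hlt
    have : j ∈ {i | i ∈ A ∧ f i < e (b i) i} := by
      refine ⟨hj.1.1, ?_⟩
      rw [hbj j hj.2, show f j = m p from hj.1.2]
      exact not_le.mp hlt
    exact absurd (ht j this) (not_lt.2 (hi3.trans hj.2.1))
  · rw [← hbj j hj.2]; exact (hb1 j).1.le

lemma exists_good {ι : Type} (G : ι → W → ℕ)
    (hG : Pairwise fun a b => {i | G a i = G b i}.Countable) (F : Set (W → ℕ)) (𝒜 : Set (Set W))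
    (h0 : ℵ₀ < #ι) (hF : #F < #ι) (h𝒜 : #𝒜 < #ι) (hA : ∀ A ∈ 𝒜, ¬ A.Countable) :
    ∃ g : W → ℕ, ∀ f ∈ F, ∀ A ∈ 𝒜, ¬ {i | i ∈ A ∧ f i < g i}.Countable := by
  set bad : F × 𝒜 → Set ι := fun p => {a | {i | i ∈ p.2.1 ∧ p.1.1 i < G a i}.Countable}
  have hfin : ∀ p, (bad p).Finite := by
    intro p
    by_contra hinf
    set s := Set.Infinite.natEmbedding _ hinf
    obtain ⟨m, hm⟩ := exists_const (hA p.2.1 p.2.2) p.1.1
    have hc : ((⋃ n, {i | i ∈ p.2.1 ∧ p.1.1 i < G (s n) i}) ∪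
        ⋃ n, ⋃ k, ⋃ _ : n ≠ k, {i | G (s n) i = G (s k) i}).Countable :=
      (countable_iUnion fun n => (s n).2).union (countable_iUnion fun n => countable_iUnion
        fun k => countable_iUnion fun hnk => hG fun e => hnk (s.injective (Subtype.ext e)))
    obtain ⟨i, hi, hi'⟩ := exists_not_mem hm hc
    simp only [mem_union, mem_iUnion, mem_ofPred_eq, not_or, not_exists, not_and, not_lt] at hi'
    refine infinite_univ (α := ℕ) (Finite.of_injOn (f := fun n => G (s n) i) (t := Iic m)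
      (fun n _ => ?_) (fun n _ k _ e => ?_) (finite_Iic _))
    · exact (hi'.1 n hi.1).trans hi.2.le
    · by_contra hnk
      exact hi'.2 n k hnk e
  have hlt : #(⋃ p, bad p) < #ι := by
    refine (mk_iUnion_le_sum_mk.trans (sum_le_sum _ (fun _ => ℵ₀)
      fun p => (hfin p).lt_aleph0.le)).trans_lt ?_
    simpa using mul_lt_of_lt h0.le (mul_lt_of_lt h0.le hF h𝒜) h0
  have : ∃ a, a ∉ ⋃ p, bad p := by
    by_contra h
    push Not at h
    rw [eq_univ_of_forall h, mk_univ] at hlt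
    exact lt_irrefl _ hlt
  obtain ⟨a, ha⟩ := this
  exact ⟨G a, fun f hf A hA' hc => ha (mem_iUnion.2 ⟨(⟨f, hf⟩, ⟨A, hA'⟩), hc⟩)⟩

theorem E_of_almostDisjoint {κ : Cardinal.{0}} (hκ : ℵ₀ < κ)
    (h : ∀ μ < κ, ∃ ℬ : Set (Set W), AlmostDisjoint ℬ ∧ μ < #ℬ) : EPrinciple κ := by
  by_cases hd : NoSmallDominating κ
  · exact E_of_noSmallDominating hκ.le hd
  intro F 𝒜 hF h𝒜 hA
  unfold NoSmallDominating at hd
  push Not at hd
  obtain ⟨D, hD, hD'⟩ := hd
  set μ := max (max #F #𝒜) (max #D ℵ₀) with hμ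
  obtain ⟨ℬ, hℬ, hμℬ⟩ := h μ (max_lt (max_lt hF h𝒜) (max_lt hD hκ))
  choose n hn hn' using fun (B : ℬ) (i : W) => exists_not_mem (hℬ.1 B.1 B.2) (countable_Iio i)
  choose f hf hf' using fun B : ℬ => hD' (n B)
  have hμ0 : ℵ₀ ≤ μ := (le_max_right _ _).trans (le_max_right _ _)
  obtain ⟨f0, hf0⟩ := infinite_pigeonhole_card (fun B : ℬ => (⟨f B, hf B⟩ : D)) (succ μ)
    (succ_le_of_lt hμℬ) (hμ0.trans (le_succ _))
    (lt_of_le_of_lt ((le_max_left _ _).trans (le_max_right _ _))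
      ((lt_succ μ).trans_le (isRegular_succ hμ0).2.ge))
  have hlt := (lt_succ μ).trans_le hf0
  choose e he using exists_inj
  refine exists_good (fun B i => e (f0.1 i) (n B.1 i)) ?_ F 𝒜 (hμ0.trans_lt hlt)
    (((le_max_left _ _).trans (le_max_left _ _)).trans_lt hlt)
    (((le_max_right _ _).trans (le_max_left _ _)).trans_lt hlt) hA
  intro B C hBC
  have hBC' : B.1.1 ≠ C.1.1 := fun e => hBC (Subtype.ext (Subtype.ext e))
  obtain ⟨t, ht⟩ := exists_bound (hℬ.2 B.1.2 C.1.2 hBC')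
  have hB : f B.1 = f0.1 := congrArg Subtype.val B.2
  have hC : f C.1 = f0.1 := congrArg Subtype.val C.2
  refine (((hf' B.1).union (hf' C.1)).union (countable_Iio t)).mono fun i hi => ?_
  by_contra hc
  simp only [mem_union, mem_ofPred_eq, not_or, not_lt, mem_Iio, hB, hC] at hc
  have e1 : n B.1 i = n C.1 i := he _ hc.1.1 hc.1.2 hi
  have e2 := ht (n B.1 i) ⟨hn _ _, e1 ▸ hn _ _⟩
  exact hn' B.1 i (e2.trans_le hc.2)

lemma noSmallDominating_two : NoSmallDominating (ℵ_ 2) := by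
  intro D hD
  have h2 : (ℵ_ 2 : Cardinal.{0}) = succ ℵ₁ := by
    rw [succ_aleph]; congr 1; exact one_add_one_eq_two.symm
  rw [h2, lt_succ_iff, ← mk_W] at hD
  obtain ⟨j⟩ := hD
  choose g hg using fun i : W => exists_bound
    (((countable_Iic i).preimage j.injective).image fun f : D => f.1 i)
  refine ⟨g, fun f hf hc => ?_⟩
  obtain ⟨i, -, hi⟩ := exists_not_mem not_countable_univ (hc.union (countable_Iio (j ⟨f, hf⟩)))
  simp only [mem_union, mem_ofPred_eq, mem_Iio, not_or, not_lt] at hi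
  exact absurd (hg i _ ⟨⟨f, hf⟩, hi.2, rfl⟩) (not_lt.2 hi.1)

lemma cover_lemma (α : Ordinal.{0}) (hα : α < ω₁) : ∀ (T : Type) (S : Set T), #S ≤ ℵ_ α →
    ∃ 𝒞 : Set (Set T), #𝒞 ≤ ℵ_ α ∧ (∀ C ∈ 𝒞, #C ≤ ℵ₁) ∧
      ∀ X ⊆ S, ¬ X.Countable → ∃ C ∈ 𝒞, ¬ (X ∩ C).Countable := by
  induction α using WellFoundedLT.induction with
  | ind α ih =>
  intro T S hS
  by_cases h1 : #S ≤ ℵ₁
  · refine ⟨{S}, by simpa using one_le_aleph0.trans (aleph0_le_aleph α), by simpa using h1,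
      fun X hX hX' => ⟨S, rfl, by rwa [inter_eq_left.2 hX]⟩⟩
  push Not at h1
  have small : ∀ R : Set T, #R < ℵ_ α → ∃ 𝒞 : Set (Set T), #𝒞 ≤ ℵ_ α ∧ (∀ C ∈ 𝒞, #C ≤ ℵ₁) ∧
      ∀ X ⊆ R, ¬ X.Countable → ∃ C ∈ 𝒞, ¬ (X ∩ C).Countable := by
    intro R hR
    rcases le_or_gt #R ℵ₀ with h | h
    · exact ⟨∅, by simp, by simp, fun X hX hX' =>
        (hX' ((le_aleph0_iff_set_countable.1 h).mono hX)).elim⟩
    · obtain ⟨β, hβ⟩ := mem_range_aleph_iff.2 h.le
      rw [← hβ, aleph_lt_aleph] at hR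
      obtain ⟨𝒞, c1, c2, c3⟩ := ih β hR (hR.trans hα) T R hβ.ge
      exact ⟨𝒞, c1.trans (aleph_le_aleph.2 hR.le), c2, c3⟩
  rcases hS.lt_or_eq with hS' | hS'
  · exact small S hS'
  obtain ⟨lo, wf, ho⟩ := exists_ord_eq_type_lt S
  choose 𝒞 c1 c2 c3 using fun t : S => small (Subtype.val '' Iio t)
    (mk_image_le.trans_lt (hS' ▸ mk_Iio_lt t ho))
  refine ⟨⋃ t, 𝒞 t, ?_, ?_, fun X hX hX' => ?_⟩
  · refine (mk_iUnion_le_sum_mk.trans (sum_le_sum _ (fun _ => ℵ_ α) c1)).trans ?_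
    simp [hS']
  · intro C hC
    obtain ⟨t, ht⟩ := mem_iUnion.1 hC
    exact c2 t C ht
  have key : ∃ t : S, ¬ (X ∩ Subtype.val '' Iio t).Countable := by
    by_contra hc
    push Not at hc
    have hcof : Order.cof S = (ω_ α).cof := by rw [← cof_type, ← ho, hS', ord_aleph]
    rcases α.zero_or_succ_or_isSuccLimit with rfl | ⟨β, rfl⟩ | hl
    · rw [hS', aleph_lt_aleph] at h1; simp at h1
    · obtain ⟨Y, hY, hY'⟩ := le_mk_iff_exists_subset.1
        (show ℵ₁ ≤ #X by rwa [aleph_one_le_iff, ← not_le, le_aleph0_iff_set_countable])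
      have hn : ¬ IsCofinal (Subtype.val ⁻¹' Y : Set S) := by
        intro hc'
        have := (Order.cof_le hc').trans (mk_preimage_of_injective _ _ Subtype.val_injective)
        rw [hcof, hY', succ_eq_add_one, cof_omega_add_one, ← succ_eq_add_one, ← hS'] at this
        exact absurd h1 (not_lt.2 this)
      rw [not_isCofinal_iff] at hn
      obtain ⟨t, ht⟩ := hn
      have : Y.Countable := (hc t).mono fun y hy =>
        And.intro (hY hy) ⟨⟨y, hX (hY hy)⟩, ht ⟨y, hX (hY hy)⟩ hy, rfl⟩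
      rw [← le_aleph0_iff_set_countable, hY'] at this
      exact absurd aleph0_lt_aleph_one (not_lt.2 this)
    · obtain ⟨R, hR, hR'⟩ := Order.exists_cof_eq S
      rw [hcof, cof_omega hl, cof_eq_aleph0_of_isSuccLimit hl hα] at hR'
      have hRc : R.Countable := le_aleph0_iff_set_countable.1 hR'.le
      refine hX' ((hRc.biUnion fun t _ => (hc t).insert t.1).mono fun x hx => ?_)
      obtain ⟨t, ht, hxt⟩ := hR ⟨x, hX hx⟩
      refine mem_biUnion ht ?_
      rcases hxt.lt_or_eq with h | h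
      · exact Or.inr ⟨hx, _, h, rfl⟩
      · exact Or.inl (congrArg Subtype.val h)
  obtain ⟨t, ht⟩ := key
  obtain ⟨C, hC, hC'⟩ := c3 t _ inter_subset_right ht
  exact ⟨C, mem_iUnion.2 ⟨t, hC⟩, fun h => hC' (h.mono (inter_subset_inter_left _ inter_subset_left))⟩

theorem almostDisjoint_of_small (h1 : (𝔠 : Cardinal.{0}) < ℵ_ ω₁) (h2 : (𝔠 : Cardinal.{0}) < 2 ^ ℵ₁)
    (μ : Cardinal.{0}) (hμ : μ < 2 ^ ℵ₁) : ∃ ℬ : Set (Set W), AlmostDisjoint ℬ ∧ μ < #ℬ := by
  obtain ⟨α, hα⟩ := mem_range_aleph_iff.2 (aleph0_le_continuum.{0})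
  have hα' : α < ω₁ := by rwa [← hα, aleph_lt_aleph] at h1
  set S : Set (W × Set W) := ⋃ i, (fun s => (i, s)) '' 𝒫 (Iio i) with hS
  have hSc : #S ≤ ℵ_ α := by
    rw [hα]
    refine (mk_iUnion_le_sum_mk.trans (sum_le_sum _ (fun _ => 𝔠) fun i => ?_)).trans ?_
    · refine mk_image_le.trans ?_
      rw [mk_powerset, ← two_power_aleph0]
      exact power_le_power_left two_ne_zero (countable_Iio i).le_aleph0
    · rw [sum_const', mk_W]
      exact (mul_le_mul_left aleph_one_le_continuum _).trans continuum_mul_self.le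
  obtain ⟨𝒞, c1, c2, c3⟩ := cover_lemma α hα' _ S hSc
  set br : Set W → W → W × Set W := fun b i => (i, b ∩ Iio i) with hbr
  have hinj : ∀ b, Function.Injective (br b) := fun b i j e => congrArg Prod.fst e
  choose C hC hC' using fun b : Set W => c3 (range (br b))
    (by rintro _ ⟨i, rfl⟩; exact mem_iUnion.2 ⟨i, _, inter_subset_right, rfl⟩)
    (fun h => not_countable_univ (by simpa using h.preimage (hinj b)))
  set ν := max μ 𝔠 with hν
  have hν0 : ℵ₀ ≤ ν := aleph0_le_continuum.trans (le_max_right _ _)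
  obtain ⟨C0, hC0⟩ := infinite_pigeonhole_card (fun b => (⟨C b, hC b⟩ : 𝒞)) (succ ν)
    (succ_le_of_lt (by rw [mk_set, mk_W]; exact max_lt hμ h2)) (hν0.trans (le_succ _))
    (lt_of_le_of_lt ((c1.trans hα.le).trans (le_max_right _ _))
      ((lt_succ ν).trans_le (isRegular_succ hν0).2.ge))
  obtain ⟨j⟩ : #C0.1 ≤ #W := mk_W ▸ c2 _ C0.2
  set tr : Set W → Set W := fun b => j '' (Subtype.val ⁻¹' range (br b)) with htr
  have had : ∀ b c : Set W, b ≠ c → (tr b ∩ tr c).Countable := by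
    intro b c hbc
    simp only [htr]
    rw [← image_inter j.injective, ← preimage_inter]
    refine Countable.image (Countable.preimage ?_ Subtype.val_injective) _
    obtain ⟨t, ht⟩ : ∃ t, ¬ (t ∈ b ↔ t ∈ c) := by
      by_contra h; push Not at h; exact hbc (Set.ext h)
    refine ((countable_Iic t).image (br b)).mono ?_
    rintro _ ⟨⟨i, rfl⟩, k, hk⟩
    refine ⟨i, ?_, rfl⟩
    by_contra hi
    have hik : k = i := congrArg Prod.fst hk
    have e : c ∩ Iio k = b ∩ Iio i := congrArg Prod.snd hk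
    rw [hik] at e
    have hti : t ∈ Iio i := show t < i from not_le.mp hi
    exact ht ⟨fun h => (e.symm ▸ ⟨h, hti⟩ : t ∈ c ∩ Iio i).1, fun h => (e ▸ ⟨h, hti⟩ : t ∈ b ∩ Iio i).1⟩
  set P := (fun b => (⟨C b, hC b⟩ : 𝒞)) ⁻¹' {C0} with hP
  have hun : ∀ b ∈ P, ¬ (tr b).Countable := by
    intro b hb h
    have e : C b = C0.1 := congrArg Subtype.val hb
    refine hC' b ?_
    have := (countable_of_injective_of_countable_image j.injective.injOn h).image Subtype.val
    rwa [Subtype.image_preimage_coe, inter_comm, ← e] at this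
  have hinj' : InjOn tr P := by
    intro b hb c _ e
    by_contra hbc
    have := had b c hbc
    rw [← e, inter_self] at this
    exact hun b hb this
  refine ⟨tr '' P, ⟨?_, ?_⟩, ?_⟩
  · rintro _ ⟨b, hb, rfl⟩; exact hun b hb
  · rintro _ ⟨b, -, rfl⟩ _ ⟨c, -, rfl⟩ hne
    exact had b c fun e => hne (e ▸ rfl)
  · rw [mk_image_eq_of_injOn _ _ hinj']
    exact ((le_max_left _ _).trans_lt (lt_succ ν)).trans_le hC0

end Pool.Agent.Lib.MP_93ea69_gt
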