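import Mathlib
import Pool.Agent.Lib.MP_93ea69_gt.Comb

namespace Pool.Agent.Lib.MP_93ea69_gt

open Cardinal Ordinal Set Order Topology

def nb (a : ℕ∞) (n : ℕ) : Set ℕ∞ := {b | b = a ∨ (a = ⊤ ∧ (n : ℕ∞) ≤ b)}

lemma nb_open (a : ℕ∞) (n : ℕ) : IsOpen (nb a n) := by
  by_cases h : a = ⊤
  · subst h
    have : nb ⊤ n = (⋃ k ∈ Iio n, {(k : ℕ∞)})ᶜ := by
      ext b
      induction b with
      | top => simp [nb]
      | coe b =>
        simp only [nb, ENat.natCast_ne_top, Nat.cast_le, mem_ofPred_eq, true_and, false_or,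
          mem_Iio, mem_compl_iff, mem_iUnion, mem_singleton_iff, Nat.cast_inj, not_exists]
        exact ⟨fun h i hi e => by omega, fun h => not_lt.mp fun hb => h b hb rfl⟩
    rw [this]
    exact ((finite_Iio n).isClosed_biUnion fun k _ => isClosed_singleton).isOpen_compl
  · have : nb a n = {a} := by ext b; simp [nb, h]
    rw [this]; exact ENat.isOpen_singleton h

lemma exists_nb {U : Set ℕ∞} (hU : IsOpen U) {a : ℕ∞} (ha : a ∈ U) : ∃ n, nb a n ⊆ U := by
  by_cases h : a = ⊤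
  · subst h
    have := ENat.tendsto_natCast_nhds_top.eventually (hU.mem_nhds ha)
    obtain ⟨n, hn⟩ := Filter.eventually_atTop.1 this
    refine ⟨n, ?_⟩
    rintro b (rfl | ⟨-, hb⟩)
    · exact ha
    · induction b with
      | top => exact ha
      | coe b => exact hn b (by exact_mod_cast hb)
  · refine ⟨0, ?_⟩
    rintro b (rfl | ⟨h', -⟩)
    exacts [ha, (h h').elim]

lemma nb_anti (a : ℕ∞) {n k : ℕ} (h : n ≤ k) : nb a k ⊆ nb a n := by
  rintro b (rfl | ⟨h1, h2⟩)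
  · exact Or.inl rfl
  · exact Or.inr ⟨h1, le_trans (by exact_mod_cast h) h2⟩

lemma exists_box {U : Set Box} (hU : IsOpen U) :
    ∀ x ∈ U, ∃ f : W → ℕ, ∀ y : Box, (∀ i, y i ∈ nb (x i) (f i)) → y ∈ U := by
  induction hU with
  | basic s hs =>
    obtain ⟨V, hV, rfl⟩ := hs
    intro x hx
    choose f hf using fun i => exists_nb (hV i) (hx i)
    exact ⟨f, fun y hy i => hf i (hy i)⟩
  | univ => exact fun x _ => ⟨fun _ => 0, fun _ _ => trivial⟩
  | inter s t _ _ h1 h2 =>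
    intro x hx
    obtain ⟨f, hf⟩ := h1 x hx.1
    obtain ⟨g, hg⟩ := h2 x hx.2
    exact ⟨fun i => max (f i) (g i), fun y hy =>
      ⟨hf y fun i => nb_anti _ (le_max_left _ _) (hy i),
        hg y fun i => nb_anti _ (le_max_right _ _) (hy i)⟩⟩
  | sUnion S _ h =>
    rintro x ⟨s, hs, hx⟩
    obtain ⟨f, hf⟩ := h s hs x hx
    exact ⟨f, fun y hy => ⟨s, hs, hf y hy⟩⟩

def NB (x : Box) (f : W → ℕ) : Set Box := {y | {i | y i ∉ nb (x i) (f i)}.Countable}

lemma self_mem_NB (x : Box) (f : W → ℕ) : x ∈ NB x f := by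
  have : {i | x i ∉ nb (x i) (f i)} = ∅ := by ext i; simp [nb]
  change Set.Countable _
  rw [this]; exact countable_empty

lemma NB_open (x : Box) (f : W → ℕ) : IsOpen (NB x f) := by
  classical
  rw [isOpen_iff_forall_mem_open]
  intro y hy
  refine ⟨{z : Box | ∀ i, z i ∈ (if y i ∈ nb (x i) (f i) then nb (x i) (f i) else univ)},
    fun z hz => Set.Countable.mono (s₂ := {i | y i ∉ nb (x i) (f i)}) (fun i hi hi' => ?_) hy,
    TopologicalSpace.GenerateOpen.basic _ ⟨_, fun i => ?_, rfl⟩, fun i => ?_⟩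
  · have := hz i
    rw [if_pos hi'] at this
    exact hi this
  · split_ifs
    exacts [nb_open _ _, isOpen_univ]
  · split_ifs with h
    exacts [h, trivial]

def q (x : Box) : Nabla := Quotient.mk boxSetoid x

def NQ (x : Box) (f : W → ℕ) : Set Nabla := q '' NB x f

lemma mem_NQ {x y : Box} {f : W → ℕ} : q y ∈ NQ x f ↔ y ∈ NB x f := by
  refine ⟨?_, fun h => ⟨y, h, rfl⟩⟩
  rintro ⟨z, hz, e⟩
  have e' : {i | z i ≠ y i}.Countable := Quotient.exact e
  refine (Set.Countable.union hz e').mono fun i hi => ?_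
  by_contra hc
  simp only [mem_union, mem_ofPred_eq, not_or, not_not] at hc
  exact hi (hc.2 ▸ hc.1)

lemma isOpen_iff {U : Set Nabla} : IsOpen U ↔ IsOpen (q ⁻¹' U) := isOpen_coinduced

lemma NQ_open (x : Box) (f : W → ℕ) : IsOpen (NQ x f) := by
  rw [isOpen_iff]
  have : q ⁻¹' NQ x f = NB x f := Set.ext fun y => mem_NQ
  rw [this]; exact NB_open x f

lemma exists_NQ {U : Set Nabla} (hU : IsOpen U) {x : Box} (hx : q x ∈ U) :
    ∃ f, NQ x f ⊆ U := by
  classical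
  obtain ⟨f, hf⟩ := exists_box (isOpen_iff.1 hU) x hx
  refine ⟨f, ?_⟩
  rintro _ ⟨y, hy, rfl⟩
  set z : Box := fun i => if y i ∈ nb (x i) (f i) then y i else x i with hz
  have e : q y = q z := Quotient.sound (Set.Countable.mono (s₂ := {i | y i ∉ nb (x i) (f i)})
    (fun i hi hi' => hi (if_pos hi').symm) hy)
  rw [e]
  refine hf z fun i => ?_
  simp only [hz]
  split_ifs with h
  exacts [h, Or.inl rfl]

lemma union_closed {κ : Cardinal.{0}} (hE : EPrinciple κ) (S : Set Box) (hS : #S < κ)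
    (f : Box → W → ℕ) : IsClosed (⋃ y ∈ S, NQ y (f y)) := by
  rw [← isOpen_compl_iff, isOpen_iff_forall_mem_open]
  intro p hp
  obtain ⟨z, rfl⟩ : ∃ z, q z = p := Quotient.exists_rep p
  simp only [mem_compl_iff, mem_iUnion, not_exists, mem_NQ] at hp
  set A : Box → Set W := fun y => {i | z i = ⊤ ∧ y i ≠ ⊤} with hA
  set S' := {y | y ∈ S ∧ ¬ (A y).Countable} with hS'
  have hS'' : #S' < κ := (mk_le_mk_of_subset fun y hy => hy.1).trans_lt hS
  obtain ⟨g, hg⟩ := hE ((fun y : Box => fun i => (y i).toNat) '' S') (A '' S')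
    (mk_image_le.trans_lt hS'') (mk_image_le.trans_lt hS'')
    (by rintro _ ⟨y, hy, rfl⟩; exact hy.2)
  refine ⟨NQ z g, ?_, NQ_open _ _, mem_NQ.2 (self_mem_NB _ _)⟩
  rintro _ ⟨w, hw, rfl⟩
  simp only [mem_compl_iff, mem_iUnion, not_exists, mem_NQ]
  intro y hy hwy
  by_cases hc : (A y).Countable
  · refine hp y hy (((Set.Countable.union hw hwy).union hc).mono fun i hi => ?_)
    by_contra hn
    simp only [mem_union, mem_ofPred_eq, not_or, not_not, hA, not_and] at hn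
    obtain ⟨⟨h1 | ⟨h1, -⟩, h2⟩, h3⟩ := hn
    · exact hi (h1 ▸ h2)
    · exact hi (Or.inl (h1.trans (h3 h1).symm))
  · refine hg _ ⟨y, ⟨hy, hc⟩, rfl⟩ _ ⟨y, ⟨hy, hc⟩, rfl⟩
      ((Set.Countable.union hw hwy).mono fun i hi => ?_)
    by_contra hn
    simp only [mem_union, mem_ofPred_eq, not_or, not_not] at hn
    obtain ⟨⟨h1, h2⟩, h3⟩ := hi
    obtain ⟨h4, h5 | ⟨h5, -⟩⟩ := hn
    · rcases h4 with h4 | ⟨-, h4⟩
      · exact h2 (h5.symm.trans (h4.trans h1))
      · rw [h5, ← ENat.natCast_toNat h2] at h4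
        exact absurd h3 (not_lt.2 (by exact_mod_cast h4))
    · exact h2 h5

lemma mk_Box : #Box = 2 ^ ℵ₁ := by
  have h1 : #ℕ∞ = ℵ₀ := mk_eq_aleph0 _
  rw [show #Box = #(W → ℕ∞) from rfl, ← power_def, h1, mk_W]
  exact le_antisymm (power_le_power_right (le_trans (le_succ _) succ_aleph0.le) |>.trans
    (power_self_eq (aleph0_le_aleph 1)).le)
    (power_le_power_right (natCast_lt_aleph0 (n := 2)).le)

theorem paracompact_of_E (hE : EPrinciple (2 ^ ℵ₁)) : ParacompactSpace Nabla := by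
  refine ⟨fun ι s hs hcov => ?_⟩
  obtain ⟨lo, wf, ho⟩ := exists_ord_eq_type_lt Box
  choose a ha using fun x : Box => mem_iUnion.1 (hcov ▸ mem_univ (q x) : q x ∈ ⋃ a, s a)
  choose f hf using fun x : Box => exists_NQ (hs (a x)) (ha x)
  set V : Box → Set Nabla := fun x => NQ x (f x) \ ⋃ y ∈ Iio x, NQ y (f y) with hV
  have hVo : ∀ x, IsOpen (V x) := fun x => (NQ_open _ _).sdiff
    (union_closed hE _ (mk_Box ▸ mk_Iio_lt x ho) f)
  have hVc : ∀ p : Nabla, ∃ x, p ∈ V x := by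
    intro p
    have hne : {x | p ∈ NQ x (f x)}.Nonempty := by
      obtain ⟨z, rfl⟩ : ∃ z, q z = p := Quotient.exists_rep p
      exact ⟨z, mem_NQ.2 (self_mem_NB _ _)⟩
    refine ⟨wellFounded_lt.min _ hne, wellFounded_lt.min_mem _ hne, fun h => ?_⟩
    obtain ⟨y, hy, hy'⟩ := mem_iUnion₂.1 h
    exact wellFounded_lt.not_lt_min {x | p ∈ NQ x (f x)} hy' hy
  refine ⟨Box, V, hVo, eq_univ_of_forall fun p => mem_iUnion.2 (hVc p), fun p => ?_,
    fun x => ⟨a x, fun p hp => hf x hp.1⟩⟩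
  obtain ⟨x, hx⟩ := hVc p
  refine ⟨V x, (hVo x).mem_nhds hx, (finite_singleton x).subset ?_⟩
  rintro y ⟨r, h1, h2⟩
  rcases lt_trichotomy y x with h | h | h
  · exact (h2.2 (mem_biUnion h h1.1)).elim
  · exact h
  · exact (h1.2 (mem_biUnion h h2.1)).elim

end Pool.Agent.Lib.MP_93ea69_gt
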