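import Mathlib
import Pool.Agent.Lib.MP_93ea69_gt.Topo

/-!
A decomposition lemma in the style of Davies and Kuratowski, and paracompactness of the nabla
power.
-/

namespace Pool.Agent.Lib.MP_93ea69_gt

open Cardinal Ordinal Set Order Topology Function

section Abstract

variable {X Y : Type} (p : W → X → Y) (j : ℕ)

/-- points determined over `S` -/
def step (S : Set X) : Set X :=
  {x | ∃ c : Fin (j + 1) → W, Injective c ∧ ∀ i, ∃ y ∈ S, p (c i) x = p (c i) y}

/-- closure under determination -/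
def cl (A : Set X) : Set X := ⋂₀ {S | A ⊆ S ∧ step p j S ⊆ S}

lemma step_mono {S T : Set X} (h : S ⊆ T) : step p j S ⊆ step p j T :=
  fun _ ⟨c, hc, hx⟩ => ⟨c, hc, fun i => (hx i).imp fun _ hy => ⟨h hy.1, hy.2⟩⟩

lemma subset_cl (A : Set X) : A ⊆ cl p j A := subset_sInter fun _ hS => hS.1

lemma cl_mono {A B : Set X} (h : A ⊆ B) : cl p j A ⊆ cl p j B :=
  sInter_subset_sInter fun _ hS => ⟨h.trans hS.1, hS.2⟩

lemma step_cl (A : Set X) : step p j (cl p j A) ⊆ cl p j A :=
  subset_sInter fun _ hS => (step_mono p j (sInter_subset_of_mem hS)).trans hS.2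

lemma step_union {ι : Type} [LinearOrder ι] {S : ι → Set X} (hS : Monotone S) {I : Set ι} {x : X}
    (hx : x ∈ step p j (⋃ a ∈ I, S a)) : ∃ a ∈ I, x ∈ step p j (S a) := by
  obtain ⟨c, hc, h⟩ := hx
  choose y hy h using h
  choose a ha hy using fun i => mem_iUnion₂.1 (hy i)
  obtain ⟨i, -, hi⟩ := Finset.exists_max_image Finset.univ a Finset.univ_nonempty
  exact ⟨a i, ha i, c, hc, fun k => ⟨y k, hS (hi k (Finset.mem_univ k)) (hy k), h k⟩⟩

lemma finite_bad {S : Set X} {x : X} (hx : x ∉ step p j S) :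
    {γ | ∃ y ∈ S, p γ x = p γ y}.Finite := by
  by_contra h
  let e := Set.Infinite.natEmbedding _ h
  exact hx ⟨fun i => e i, fun i k hik => Fin.val_injective (e.injective (Subtype.ext hik)),
    fun i => (e i).2⟩

variable {p j} (hp : ∀ c : Fin (j + 1) → W, Injective c → ∀ x y,
  (∀ i, p (c i) x = p (c i) y) → x = y)
include hp

lemma mk_step {μ : Cardinal.{0}} (hμ : ℵ₁ ≤ μ) {S : Set X} (hS : #S ≤ μ) : #(step p j S) ≤ μ := by
  choose c hc y hy h using fun x : step p j S => x.2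
  have h0 : ℵ₀ ≤ μ := aleph0_lt_aleph_one.le.trans hμ
  refine (mk_le_of_injective (f := fun x => (c x, fun i => (⟨y x i, hy x i⟩ : S)))
    fun x z hxz => Subtype.ext (hp (c x) (hc x) _ _ fun i => ?_)).trans ?_
  · have h1 : c x = c z := congrArg Prod.fst hxz
    have h2 : y x i = y z i := congrArg Subtype.val (congrFun (congrArg Prod.snd hxz) i)
    rw [h x i, h2, h1, h z i]
  · have h1 : ∀ {T : Type}, #T ≤ μ → #(Fin (j + 1) → T) ≤ μ := fun hT => by
      rw [← power_def, mk_fin]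
      exact (power_le_power_right hT).trans (power_nat_le h0)
    rw [mk_prod, Cardinal.lift_id, Cardinal.lift_id]
    exact (mul_le_mul' (h1 (mk_W.le.trans hμ)) (h1 hS)).trans (mul_eq_self h0).le

lemma mk_cl {μ : Cardinal.{0}} (hμ : ℵ₁ ≤ μ) {A : Set X} (hA : #A ≤ μ) : #(cl p j A) ≤ μ := by
  have h0 : ℵ₀ ≤ μ := aleph0_lt_aleph_one.le.trans hμ
  let S : ℕ → Set X := fun n => Nat.rec A (fun _ T => T ∪ step p j T) n
  have hS : Monotone S := monotone_nat_of_le_succ fun n => subset_union_left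
  have h1 : ∀ n : ℕ, #↥(S n) ≤ μ := fun n => by
    induction n with
    | zero => exact hA
    | succ n ih =>
      exact (mk_union_le _ _).trans ((add_le_add ih (mk_step hp hμ ih)).trans (add_eq_self h0).le)
  refine (mk_le_mk_of_subset (t := ⋃ n, S n) (sInter_subset_of_mem
    (And.intro (subset_iUnion S 0) fun x hx => ?_))).trans ?_
  · rw [← biUnion_univ] at hx
    obtain ⟨n, -, hn⟩ := step_union p j hS hx
    exact mem_iUnion.2 ⟨n + 1, Or.inr hn⟩
  · refine (mk_iUnion_le_sum_mk.trans (sum_le_sum _ (fun _ => μ) h1)).trans ?_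
    rw [sum_const', mk_nat]
    exact (mul_le_mul' h0 le_rfl).trans (mul_eq_self h0).le

lemma davies (μ : Cardinal.{0}) : ∀ S : Set X, #S = μ → ∃ ρ : X → W, ∀ x ∈ S, ∀ y ∈ S, ∀ γ,
    ρ x ≤ γ → ρ y ≤ γ → p γ x = p γ y → x = y := by
  induction μ using WellFoundedLT.induction with
  | ind μ ih =>
  intro S hS
  classical
  obtain ⟨w, -⟩ := exists_bound countable_empty
  rcases le_or_gt μ ℵ₁ with h | h
  · obtain ⟨e⟩ : #S ≤ #W := by rwa [hS, mk_W]
    have h1 : ∀ x : S, {γ | ∃ y : S, e y < e x ∧ p γ x = p γ y}.Countable := fun x => by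
      refine (((countable_Iio (e x)).preimage e.injective).biUnion fun y hy =>
        (finite_bad p j (S := {y.1}) (x := x) ?_).countable).mono ?_
      · rintro ⟨c, hc, h⟩
        have : x = y := Subtype.ext (hp c hc _ _ fun i => by simpa using h i)
        exact lt_irrefl _ (this ▸ hy : e y < e y)
      · rintro γ ⟨y, hy, h⟩
        exact mem_biUnion hy ⟨y, rfl, h⟩
    choose r hr using fun x => exists_bound (h1 x)
    refine ⟨fun x => if hx : x ∈ S then r ⟨x, hx⟩ else w, fun x hx y hy γ h2 h3 h4 => ?_⟩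
    simp only [dif_pos hx] at h2
    simp only [dif_pos hy] at h3
    rcases lt_trichotomy (e ⟨x, hx⟩) (e ⟨y, hy⟩) with h5 | h5 | h5
    · exact absurd (hr _ γ ⟨_, h5, h4.symm⟩) (not_lt.2 h3)
    · exact congrArg Subtype.val (e.injective h5)
    · exact absurd (hr _ γ ⟨_, h5, h4⟩) (not_lt.2 h2)
  · obtain ⟨lo, wf, ho⟩ := exists_ord_eq_type_lt S
    let C : S → Set X := fun a => cl p j (Subtype.val '' Iic a)
    have hC : Monotone C := fun a b hab => cl_mono p j (image_mono (Iic_subset_Iic.2 hab))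
    choose σ hσ using fun a : S => ih _ ((mk_cl hp (le_max_left ℵ₁ #(Iic a))
      (mk_image_le.trans (le_max_right _ _))).trans_lt (max_lt h (hS ▸ mk_Iic_lt a ho
        (hS ▸ aleph0_lt_aleph_one.le.trans h.le)))) (C a) rfl
    have hne : ∀ x : S, {a | x.1 ∈ C a}.Nonempty := fun x => ⟨x, subset_cl p j _ ⟨x, le_rfl, rfl⟩⟩
    let m : S → S := fun x => wellFounded_lt.min _ (hne x)
    have hm : ∀ x : S, x.1 ∈ C (m x) := fun x => wellFounded_lt.min_mem _ (hne x)
    have h1 : ∀ x : S, {γ | ∃ y ∈ ⋃ a ∈ Iio (m x), C a, p γ x = p γ y}.Countable := fun x => by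
      refine (finite_bad p j fun hx => ?_).countable
      obtain ⟨a, ha, h⟩ := step_union p j hC hx
      exact wellFounded_lt.not_lt_min {a | x.1 ∈ C a} (step_cl p j _ h) ha
    choose r hr using fun x => exists_bound (h1 x)
    refine ⟨fun x => if hx : x ∈ S then max (r ⟨x, hx⟩) (σ (m ⟨x, hx⟩) x) else w,
      fun x hx y hy γ h2 h3 h4 => ?_⟩
    simp only [dif_pos hx, max_le_iff] at h2
    simp only [dif_pos hy, max_le_iff] at h3
    rcases lt_trichotomy (m ⟨x, hx⟩) (m ⟨y, hy⟩) with h5 | h5 | h5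
    · exact absurd (hr _ γ ⟨x, mem_biUnion h5 (hm ⟨x, hx⟩), h4.symm⟩) (not_lt.2 h3.1)
    · exact hσ _ x (hm ⟨x, hx⟩) y (h5 ▸ hm ⟨y, hy⟩) γ h2.2 (h5 ▸ h3.2) h4
    · exact absurd (hr _ γ ⟨y, mem_biUnion h5 (hm ⟨y, hy⟩), h4⟩) (not_lt.2 h2.1)

end Abstract

/-- truncation below `f` -/
noncomputable def tr (f : W → ℕ) (x : Box) : Box := fun i => if x i < f i then x i else ⊤

/-- truncation on the quotient -/
noncomputable def T (f : W → ℕ) : Nabla → Nabla :=
  Quotient.map (tr f) fun x y h => Set.Countable.mono (s₂ := {i | x i ≠ y i})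
    (fun i hi (e : x i = y i) => hi (by simp only [tr, e])) h

lemma q_eq {x y : Box} : q x = q y ↔ {i | x i ≠ y i}.Countable := Quotient.eq

lemma T_q (f : W → ℕ) (x : Box) : T f (q x) = q (tr f x) := rfl

lemma T_comm (f g : W → ℕ) (a : Nabla) : T f (T g a) = T g (T f a) := by
  obtain ⟨x, rfl⟩ : ∃ x, q x = a := Quotient.exists_rep a
  simp only [T_q]
  congr 1
  funext i
  by_cases h1 : x i < f i <;> by_cases h2 : x i < g i <;> simp [tr, h1, h2]

lemma T_ext {a b : Nabla} (h : ∀ j : ℕ, T (fun _ => j) a = T (fun _ => j) b) : a = b := by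
  obtain ⟨x, rfl⟩ : ∃ x, q x = a := Quotient.exists_rep a
  obtain ⟨y, rfl⟩ : ∃ x, q x = b := Quotient.exists_rep b
  simp only [T_q, q_eq] at h
  refine q_eq.2 ((countable_iUnion h).mono fun i hi => ?_)
  by_contra h1
  simp only [mem_iUnion, mem_ofPred_eq, not_exists, not_not, tr] at h1
  refine hi ?_
  have key : ∀ u v : ℕ∞, (∀ j : ℕ, (if u < j then u else ⊤) = if v < j then v else ⊤) → v ≤ u :=
    fun u v h => by
      induction u with
      | top => exact le_top
      | coe n =>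
        have := h (n + 1)
        rw [if_pos (by exact_mod_cast n.lt_succ_self)] at this
        split_ifs at this
        · exact this.ge
        · exact absurd this (ENat.natCast_ne_top n)
  exact le_antisymm (key _ _ fun j => (h1 j).symm) (key _ _ h1)

lemma T_NQ {x : Box} {f h : W → ℕ} (hf : f ≤ h) {a : Nabla} (ha : a ∈ NQ x h) :
    T f a = T f (q x) := by
  obtain ⟨y, hy, rfl⟩ := ha
  refine q_eq.2 (Set.Countable.mono (s₂ := {i | y i ∉ nb (x i) (h i)}) (fun i hi hi' => hi ?_) hy)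
  rcases hi' with h1 | ⟨h1, h2⟩
  · simp only [tr, h1]
  · have : ¬ y i < f i := not_lt.2 (le_trans (by exact_mod_cast hf i) h2)
    simp [tr, h1, this]

lemma exists_rank : ∃ (ε : W → W → ℕ) (ρ : Nabla → W), ∀ a b γ, ρ a ≤ γ → ρ b ≤ γ →
    T (ε γ) a = T (ε γ) b → a = b := by
  choose e he using exists_inj
  let ε : W → W → ℕ := fun γ i => e i γ
  have h1 : ∀ j : ℕ, ∀ c : Fin (j + 1) → W, Injective c → ∀ a b : range (T fun _ => j),
      (∀ i, T (ε (c i)) a = T (ε (c i)) b) → a = b := by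
    rintro j c hc ⟨_, a, rfl⟩ ⟨_, b, rfl⟩ h
    obtain ⟨x, rfl⟩ : ∃ x, q x = a := Quotient.exists_rep a
    obtain ⟨y, rfl⟩ : ∃ x, q x = b := Quotient.exists_rep b
    simp only [T_q, q_eq] at h
    refine Subtype.ext (q_eq.2 (((countable_iUnion h).union
      (countable_iUnion fun i => countable_Iio (c i))).mono fun α hα => ?_))
    by_contra h1
    simp only [mem_union, mem_iUnion, mem_ofPred_eq, not_or, not_exists, not_not, mem_Iio,
      not_lt] at h1
    obtain ⟨i, hi⟩ : ∃ i, j ≤ e α (c i) := by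
      by_contra h2
      push Not at h2
      have := Fintype.card_le_of_injective (fun i => (⟨_, h2 i⟩ : Fin j)) fun i k hik =>
        hc (he α (h1.2 i) (h1.2 k) (congrArg Fin.val hik))
      simp at this
    have key : ∀ z : Box, tr (ε (c i)) (tr (fun _ => j) z) α = tr (fun _ => j) z α := fun z => by
      by_cases h2 : z α < j
      · have : z α < e α (c i) := h2.trans_le (by exact_mod_cast hi)
        simp [tr, ε, h2, this]
      · simp [tr, h2]
    exact hα ((key x).symm.trans ((h1.1 i).trans (key y)))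
  choose r hr using fun j => davies (p := fun γ (a : range (T fun _ => j)) => T (ε γ) a) (h1 j) _
    univ rfl
  choose ρ hρ using fun a : Nabla =>
    exists_bound (countable_range fun j : ℕ => r j ⟨T (fun _ => j) a, a, rfl⟩)
  refine ⟨ε, ρ, fun a b γ ha hb h => T_ext fun j => congrArg Subtype.val
    (hr j ⟨_, a, rfl⟩ trivial ⟨_, b, rfl⟩ trivial γ ((hρ a _ ⟨j, rfl⟩).le.trans ha)
      ((hρ b _ ⟨j, rfl⟩).le.trans hb) ?_)⟩
  rw [T_comm, h, T_comm]

theorem paracompact : ParacompactSpace Nabla := by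
  refine ⟨fun ι s hs hcov => ?_⟩
  obtain ⟨ε, ρ, hρ⟩ := exists_rank
  have ho : ∀ a : Nabla, ∃ x, q x = a := Quotient.exists_rep
  choose o ho using ho
  choose k hk using fun a : Nabla => mem_iUnion.1 (hcov ▸ mem_univ a : a ∈ ⋃ a, s a)
  choose g hg using fun a : Nabla => exists_NQ (x := o a) (hs (k a)) (by rw [ho]; exact hk a)
  let η : Nabla → W := fun a => max (ρ a) (ρ (T (ε (ρ a)) a))
  let h : Nabla → W → ℕ := fun a => g a ⊔ (ε (ρ a) ⊔ ε (η a))
  let N : Nabla → Set Nabla := fun a => NQ (o a) (h a)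
  have hN : ∀ a, a ∈ N a := fun a => by
    have := mem_NQ.2 (self_mem_NB (o a) (h a))
    rwa [ho] at this
  have h1 : ∀ a, ∀ w ∈ N a, T (ε (ρ a)) w = T (ε (ρ a)) a := fun a w hw => by
    rw [T_NQ (le_sup_of_le_right le_sup_left) hw, ho]
  have h2 : ∀ a, ∀ w ∈ N a, T (ε (η a)) w = T (ε (η a)) a := fun a w hw => by
    rw [T_NQ (le_sup_of_le_right le_sup_right) hw, ho]
  have hcl : ∀ ξ, IsClosed (⋃ b ∈ {b | η b < ξ}, N b) := fun ξ => by
    rw [← isOpen_compl_iff, isOpen_iff_forall_mem_open]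
    intro x hx
    obtain ⟨δ, hδ⟩ := exists_bound (((countable_Iio ξ).image fun γ => ρ (T (ε γ) x)).insert ξ)
    let D := {b | η b < ξ ∧ T (ε (ρ b)) b = T (ε (ρ b)) x}
    have hD : D.Countable := countable_of_injective_of_countable_image (f := ρ)
      (fun a ha b hb hab => hρ a b (ρ b) hab.le le_rfl (by rw [hb.2, ← hab, ha.2]))
      ((countable_Iio ξ).mono (by
        rintro _ ⟨b, hb, rfl⟩
        exact (le_max_left _ _).trans_lt hb.1))
    have h3 := union_closed (E_of_noSmallDominating (aleph0_le_aleph 2) noSmallDominating_two)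
      (o '' D) ((hD.image o).le_aleph0.trans_lt (aleph0_lt_aleph.2 (by simp))) fun y => h (q y)
    refine ⟨NQ (o x) (ε δ) \ ⋃ y ∈ o '' D, NQ y (h (q y)), fun w hw hw' => ?_,
      (NQ_open _ _).sdiff h3, ?_, fun h4 => ?_⟩
    · obtain ⟨b, hb, hw'⟩ := mem_iUnion₂.1 hw'
      have h4 := T_NQ le_rfl hw.1
      rw [ho] at h4
      refine hw.2 (mem_biUnion (mem_image_of_mem o (show b ∈ D from ⟨hb, hρ _ _ δ
        ((le_max_right _ _).trans (hb.le.trans (hδ _ (mem_insert _ _)).le))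
        (hδ _ (mem_insert_of_mem _ ⟨ρ b, mem_Iio.2 ((le_max_left _ _).trans_lt hb), rfl⟩)).le ?_⟩)) ?_)
      · rw [← h1 b w hw', T_comm, h4, T_comm]
      · rwa [ho]
    · have := mem_NQ.2 (self_mem_NB (o x) (ε δ))
      rwa [ho] at this
    · obtain ⟨_, ⟨b, hb, rfl⟩, h4⟩ := mem_iUnion₂.1 h4
      rw [ho] at h4
      exact hx (mem_biUnion hb.1 h4)
  let V : Nabla → Set Nabla := fun a => N a \ ⋃ b ∈ {b | η b < η a}, N b
  have hVo : ∀ a, IsOpen (V a) := fun a => (NQ_open _ _).sdiff (hcl _)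
  have hVc : ∀ w : Nabla, ∃ a, w ∈ V a := fun w => by
    obtain ⟨_, ⟨a, ha, rfl⟩, hm⟩ := wellFounded_lt.has_min (η '' {a | w ∈ N a})
      ⟨_, w, hN w, rfl⟩
    refine ⟨a, ha, fun h => ?_⟩
    obtain ⟨b, hb, h⟩ := mem_iUnion₂.1 h
    exact hm _ ⟨b, h, rfl⟩ hb
  refine ⟨Nabla, V, hVo, eq_univ_of_forall fun w => mem_iUnion.2 (hVc w), fun w => ?_,
    fun a => ⟨k a, fun w hw => hg a ?_⟩⟩
  · obtain ⟨a, ha⟩ := hVc w
    refine ⟨V a, (hVo a).mem_nhds ha, (finite_singleton a).subset ?_⟩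
    rintro b ⟨r, h3, h4⟩
    rcases lt_trichotomy (η b) (η a) with h5 | h5 | h5
    · exact (h4.2 (mem_biUnion h5 h3.1)).elim
    · exact hρ b a (η a) ((le_max_left _ _).trans h5.le) (le_max_left _ _)
        (by rw [← h2 a r h4.1, ← h5, h2 b r h3.1])
    · exact (h3.2 (mem_biUnion h5 h4.1)).elim
  · obtain ⟨y, hy, rfl⟩ := hw.1
    exact ⟨y, Set.Countable.mono (s₂ := {i | y i ∉ nb (o a i) (h a i)})
      (fun i hi hi' => hi (nb_anti _ le_sup_left hi')) hy, rfl⟩

end Pool.Agent.Lib.MP_93ea69_gt
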