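import Mathlib
import Pool.Agent.Lib.MP_93ea69_gt.Davies

/-!
Monotone normality of the nabla power.
-/

namespace Pool.Agent.Lib.MP_93ea69_gt

open Cardinal Ordinal Set Order Topology

lemma NQ_anti (x : Box) {f g : W → ℕ} (h : f ≤ g) : NQ x g ⊆ NQ x f := by
  rintro _ ⟨y, hy, rfl⟩
  exact ⟨y, Set.Countable.mono (s₂ := {i | y i ∉ nb (x i) (g i)})
    (fun i hi hi' => hi (nb_anti _ (h i) hi')) hy, rfl⟩

/-- One function separates `z` from every member of a small family that is finite on uncountably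
many coordinates where `z` is infinite. -/
lemma exists_halving (z : Box) (S : Set Box) (hS : S.Countable) :
    ∃ g : W → ℕ, ∀ y ∈ S, ∀ f : W → ℕ, (NQ z g ∩ NQ y f).Nonempty → q z ∈ NQ y f := by
  have hE := E_of_noSmallDominating (aleph0_le_aleph 2) noSmallDominating_two
  set A : Box → Set W := fun y => {i | z i = ⊤ ∧ y i ≠ ⊤} with hA
  set S' := {y | y ∈ S ∧ ¬ (A y).Countable} with hS'
  have hS'' : #S' < ℵ_ 2 := (hS.mono fun y hy => hy.1).le_aleph0.trans_lt
    (aleph0_lt_aleph.2 (by simp))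
  obtain ⟨g, hg⟩ := hE ((fun y : Box => fun i => (y i).toNat) '' S') (A '' S')
    (mk_image_le.trans_lt hS'') (mk_image_le.trans_lt hS'')
    (by rintro _ ⟨y, hy, rfl⟩; exact hy.2)
  refine ⟨g, fun y hy f ⟨p, ⟨w, hw, e⟩, hwy⟩ => ?_⟩
  subst e
  rw [mem_NQ] at hwy ⊢
  by_cases hc : (A y).Countable
  · refine ((Set.Countable.union hw hwy).union hc).mono fun i hi => ?_
    by_contra hn
    simp only [mem_union, mem_ofPred_eq, not_or, not_not, hA, not_and] at hn
    obtain ⟨⟨h1 | ⟨h1, -⟩, h2⟩, h3⟩ := hn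
    · exact hi (h1 ▸ h2)
    · exact hi (Or.inl (h1.trans (h3 h1).symm))
  · refine absurd ((Set.Countable.union hw hwy).mono fun i hi => ?_)
      (hg _ ⟨y, ⟨hy, hc⟩, rfl⟩ _ ⟨y, ⟨hy, hc⟩, rfl⟩)
    by_contra hn
    simp only [mem_union, mem_ofPred_eq, not_or, not_not] at hn
    obtain ⟨⟨h1, h2⟩, h3⟩ := hi
    obtain ⟨h4, h5 | ⟨h5, -⟩⟩ := hn
    · rcases h4 with h4 | ⟨-, h4⟩
      · exact h2 (h5.symm.trans (h4.trans h1))
      · rw [h5, ← ENat.natCast_toNat h2] at h4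
        exact absurd h3 (not_lt.2 (by exact_mod_cast h4))
    · exact h2 h5

/-- The halving principle: one assignment `H` of functions works for all neighbourhoods. -/
theorem exists_H : ∃ (o : Nabla → Box) (H : Nabla → W → ℕ), (∀ a, q (o a) = a) ∧
    ∀ a b f g, H a ≤ f → H b ≤ g → (NQ (o a) f ∩ NQ (o b) g).Nonempty →
      a ∈ NQ (o b) g ∨ b ∈ NQ (o a) f := by
  obtain ⟨ε, ρ, hρ⟩ := exists_rank
  have ho : ∀ a : Nabla, ∃ x, q x = a := Quotient.exists_rep
  choose o ho using ho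
  let η : Nabla → W := fun a => max (ρ a) (ρ (T (ε (ρ a)) a))
  choose δ hδ using fun x : Nabla =>
    exists_bound (((countable_Iio (η x)).image fun γ => ρ (T (ε γ) x)).insert (η x))
  let D : Nabla → Set Nabla := fun x => {b | η b < η x ∧ T (ε (ρ b)) b = T (ε (ρ b)) x}
  have hD : ∀ x, (D x).Countable := fun x => countable_of_injective_of_countable_image (f := ρ)
    (fun a ha b hb hab => hρ a b (ρ b) hab.le le_rfl (by rw [hb.2, ← hab, ha.2]))
    ((countable_Iio (η x)).mono (by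
      rintro _ ⟨b, hb, rfl⟩
      exact (le_max_left _ _).trans_lt hb.1))
  choose G hG using fun x : Nabla => exists_halving (o x) (o '' D x) ((hD x).image o)
  let H : Nabla → W → ℕ := fun a => (ε (ρ a) ⊔ ε (η a)) ⊔ (ε (δ a) ⊔ G a)
  have key : ∀ a b f g, H a ≤ f → H b ≤ g → η b < η a → (NQ (o a) f ∩ NQ (o b) g).Nonempty →
      a ∈ NQ (o b) g := by
    rintro a b f g hf hg hab ⟨w, hwa, hwb⟩
    have h1 : T (ε (ρ b)) w = T (ε (ρ b)) b := by
      rw [T_NQ ((le_sup_left.trans le_sup_left).trans hg) hwb, ho]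
    have h4 : T (ε (δ a)) w = T (ε (δ a)) a := by
      rw [T_NQ ((le_sup_left.trans le_sup_right).trans hf) hwa, ho]
    have hb : b ∈ D a := ⟨hab, hρ _ _ (δ a)
      ((le_max_right _ _).trans (hab.le.trans (hδ a _ (mem_insert _ _)).le))
      (hδ a _ (mem_insert_of_mem _ ⟨ρ b, mem_Iio.2 ((le_max_left _ _).trans_lt hab), rfl⟩)).le
      (by rw [← h1, T_comm, h4, T_comm])⟩
    have := hG a (o b) (mem_image_of_mem o hb) g
      ⟨w, NQ_anti _ ((le_sup_right.trans le_sup_right).trans hf) hwa, hwb⟩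
    rwa [ho] at this
  refine ⟨o, H, ho, fun a b f g hf hg hne => ?_⟩
  rcases lt_trichotomy (η b) (η a) with h5 | h5 | h5
  · exact Or.inl (key a b f g hf hg h5 hne)
  · obtain ⟨w, hwa, hwb⟩ := hne
    have h2 : T (ε (η a)) w = T (ε (η a)) a := by
      rw [T_NQ ((le_sup_right.trans le_sup_left).trans hf) hwa, ho]
    have h3 : T (ε (η b)) w = T (ε (η b)) b := by
      rw [T_NQ ((le_sup_right.trans le_sup_left).trans hg) hwb, ho]
    have e : b = a := hρ b a (η a) ((le_max_left _ _).trans h5.le) (le_max_left _ _)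
      (by rw [← h2, ← h5, h3])
    have := mem_NQ.2 (self_mem_NB (o b) g)
    rw [ho, e] at this
    exact Or.inl (e ▸ this)
  · exact Or.inr (key b a g f hg hf h5 (inter_comm _ _ ▸ hne))

theorem monotoneNormal : ∃ G : Set Nabla → Set Nabla → Set Nabla,
    (∀ A B, Disjoint (closure A) B → Disjoint A (closure B) →
      IsOpen (G A B) ∧ A ⊆ G A B ∧ Disjoint (closure (G A B)) B) ∧
    ∀ A A' B B', A ⊆ A' → B' ⊆ B → G A B ⊆ G A' B' := by
  obtain ⟨o, H, ho, hH⟩ := exists_H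
  have hnb : ∀ (a : Nabla) (U : Set Nabla), IsOpen U → a ∈ U →
      ∃ f, H a ≤ f ∧ NQ (o a) f ⊆ U := fun a U hU ha => by
    obtain ⟨f, hf⟩ := exists_NQ (x := o a) hU (by rwa [ho])
    exact ⟨H a ⊔ f, le_sup_left, (NQ_anti _ le_sup_right).trans hf⟩
  have hself : ∀ (a : Nabla) f, a ∈ NQ (o a) f := fun a f => by
    have := mem_NQ.2 (self_mem_NB (o a) f)
    rwa [ho] at this
  refine ⟨fun A B => ⋃ a ∈ A, ⋃ f ∈ {f | H a ≤ f ∧ NQ (o a) f ⊆ (closure B)ᶜ}, NQ (o a) f,
    fun A B h1 h2 => ⟨isOpen_biUnion fun a _ => isOpen_biUnion fun f _ => NQ_open _ _,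
      fun a ha => ?_, ?_⟩, fun A A' B B' hA hB => ?_⟩
  · obtain ⟨f, hf⟩ := hnb a _ isClosed_closure.isOpen_compl (disjoint_left.1 h2 ha)
    exact mem_biUnion ha (mem_biUnion hf (hself a f))
  · refine disjoint_right.2 fun b hb hc => ?_
    obtain ⟨g, hg, hg'⟩ := hnb b _ isClosed_closure.isOpen_compl (disjoint_right.1 h1 hb)
    obtain ⟨w, hw, hw'⟩ := mem_closure_iff.1 hc _ (NQ_open (o b) g) (hself b g)
    obtain ⟨a, ha, hw'⟩ := mem_iUnion₂.1 hw'
    obtain ⟨f, hf, hw'⟩ := mem_iUnion₂.1 hw'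
    rcases hH a b f g hf.1 hg ⟨w, hw', hw⟩ with h | h
    · exact hg' h (subset_closure ha)
    · exact hf.2 h (subset_closure hb)
  · refine iUnion₂_subset fun a ha => iUnion₂_subset fun f hf => fun w hw => ?_
    exact mem_biUnion (hA ha) (mem_biUnion
      (show f ∈ {f | H a ≤ f ∧ NQ (o a) f ⊆ (closure B')ᶜ} from
        ⟨hf.1, hf.2.trans (compl_subset_compl.2 (closure_mono hB))⟩) hw)

end Pool.Agent.Lib.MP_93ea69_gt
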